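import Pool.Agent.Lib.MP_3f8e0b_gt.ZAct
import Pool.Agent.Lib.MP_3f8e0b_gt.Manifold
import Pool.Agent.Lib.MP_3f8e0b_gt.Crit
import Pool.Agent.Lib.MP_3f8e0b_gt.CircleFlow
import Pool.Agent.Lib.MP_3f8e0b_gt.FlowCont
import Pool.Agent.Lib.MP_3f8e0b_gt.S0Good
import Pool.Agent.Lib.MP_3f8e0b_gt.Compact
import Pool.Agent.Lib.MP_3f8e0b_gt.Conn
import Pool.Agent.Lib.MP_3f8e0b_gt.Zp
import Pool.Agent.Lib.MP_3f8e0b_gt.Half

/-!
# A closed 4-manifold without circle actions, with `ℤ_p`-actions for every odd prime `p`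

The manifold is the mapping torus of the sphere twist along the nonseparating sphere of
`T³ # (S¹ × S²)`.  This answers Q1 of MP_3f8e0b_gt in the negative.
-/

open Set Filter Topology SphTw
open scoped ContDiff Manifold

/-- There is a closed connected smooth 4-manifold `X` without nontrivial smooth circle action
which carries, for every odd prime `p`, a free smooth `ℤ_p`-action. -/
theorem Pool.Agent.Results.MP_3f8e0b_gt.SphereTwist.result :
    ∃ (X : Type) (_ : TopologicalSpace X) (_ : ChartedSpace (EuclideanSpace ℝ (Fin 4)) X),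
      IsManifold (𝓡 4) ∞ X ∧ T2Space X ∧ SecondCountableTopology X ∧ CompactSpace X ∧
      ConnectedSpace X ∧
      (¬ ∃ a : Circle → X → X, (∀ x, a 1 x = x) ∧ (∀ g h x, a (g * h) x = a g (a h x)) ∧
        ContMDiff ((𝓡 1).prod (𝓡 4)) (𝓡 4) ∞ (fun y : Circle × X => a y.1 y.2) ∧
        ∃ g x, a g x ≠ x) ∧
      ∀ p : ℕ, p.Prime → p ≠ 2 → ∃ ρ : Multiplicative (ZMod p) →* Equiv.Perm X,
        (∀ j, ContMDiff (𝓡 4) (𝓡 4) ∞ (ρ j)) ∧ ∀ j, j ≠ 1 → ∀ x, ρ j x ≠ x := by
  have hS := S0_good
  obtain ⟨c, hM⟩ := hS.exists_mfd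
  have := connectedSpace_S0
  have := compactSpace_S0
  have hsc : SecondCountableTopology S0.X :=
    ChartedSpace.secondCountable_of_sigmaCompact (EuclideanSpace ℝ (Fin 4)) S0.X
  refine ⟨S0.X, inferInstance, c, hM.isManifold, hS.t2, hsc, compactSpace_S0,
    connectedSpace_S0, ?_, ?_⟩
  · rintro ⟨a, h1, hmul, ha, g, x, hgx⟩
    have hT := hM.circle_flow hS h1 hmul ha
    have htriv := Etale.trivial_of_half hS (fun T hT => half hT) hT
    obtain ⟨t, rfl⟩ : ∃ t, Circle.exp t = g := ⟨_, Circle.exp_arg g⟩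
    apply hgx
    have := htriv (t / (2 * Real.pi)) x
    have h2 : 2 * Real.pi * (t / (2 * Real.pi)) = t := by
      field_simp
    rw [h2] at this
    exact this
  · intro p hp hp2
    have hodd : Odd p := hp.odd_of_ne_two hp2
    have h3 : 3 ≤ p := by
      have := hp.two_le
      rcases hodd with ⟨k, hk⟩
      omega
    obtain ⟨F, hF1, hF2, hF3⟩ := zp_action hodd h3
    have hFs := hM.contMDiff_of_lift hS hF1
    obtain ⟨ρ, hρ⟩ := exists_zmod_action (by omega) hF2
    refine ⟨ρ, ?_, ?_⟩
    · intro j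
      have h1 : (ρ j : S0.X → S0.X) = F^[(Multiplicative.toAdd j).val] := by
        funext q
        exact hρ (Multiplicative.toAdd j) q
      rw [h1]
      have h2 : ∀ n : ℕ, ContMDiff (𝓡 4) (𝓡 4) ∞ (F^[n]) := by
        intro n
        induction n with
        | zero => exact contMDiff_id
        | succ n ih =>
          rw [Function.iterate_succ]
          exact ih.comp hFs
      exact h2 _
    · intro j hj x
      have h1 := hρ (Multiplicative.toAdd j) x
      have : NeZero p := ⟨hp.ne_zero⟩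
      have h2 : 0 < (Multiplicative.toAdd j).val := by
        rw [Nat.pos_iff_ne_zero]
        intro h0
        apply hj
        rw [ZMod.val_eq_zero] at h0
        exact h0
      have h3 := ZMod.val_lt (Multiplicative.toAdd j)
      have h4 := hF3 _ h2 h3 x
      intro h5
      apply h4
      rw [← h1]
      exact h5
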